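import Pool.Agent.helper36.PP.SpecD

/-!
# Project v3: (MP_af9036_an, MP_70a088_an): the exceptional point `ζ = 1`: definitions

Paper proof: /team-store/MP_af9036_V3_notes.md (helper10), quoted as [V3, (x.y)]; it builds on Phase 1 of
/team-store/MP_af9036_strip_helper36.md and /team-store/MP_70a088_PP_helper36.md (namespaces `MPS`, `PPS`).

Main theorem `V3P_stmt`: repelling cycles of polynomials whose multiplier `ρ = exp lam` is close to `1` and whose quadratic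
differential is almost invariant (`∫ |er| ≤ C |lam|`) do not exist.
-/

set_option autoImplicit false

open Complex Metric Set Filter Topology MeasureTheory MPS

noncomputable section

namespace V3S

/-- all limits are taken along the hyperfilter of `ℕ`. -/
def UF : Filter ℕ := ((hyperfilter ℕ : Ultrafilter ℕ) : Filter ℕ)

instance : NeBot UF := by unfold UF; infer_instance

theorem UF_le : UF ≤ atTop := by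
  have h : ((hyperfilter ℕ : Ultrafilter ℕ) : Filter ℕ) ≤ cofinite := hyperfilter_le_cofinite
  rwa [Nat.cofinite_eq_atTop] at h

theorem UF_em (p : ℕ → Prop) : (∀ᶠ m in UF, p m) ∨ (∀ᶠ m in UF, ¬ p m) :=
  Ultrafilter.em (hyperfilter ℕ) p

theorem UF_not (p : ℕ → Prop) : (¬ ∀ᶠ m in UF, p m) ↔ ∀ᶠ m in UF, ¬ p m :=
  Ultrafilter.eventually_not.symm

/-- a datum: polynomial, cycle, coefficients, maximal pole maps, logarithm of the multiplier. -/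
structure Dat where
  k : ℕ
  nz : NeZero k
  f : Polynomial ℂ
  b : ZMod k → ℂ
  g : ZMod k → ℂ
  ψ : ZMod k → ℂ → ℂ
  lam : ℂ

attribute [instance] Dat.nz

namespace Dat

/-- the scale `σ = ψ_0'(0)`. -/
def sg (D : Dat) : ℂ := deriv (D.ψ 0) 0

/-- from the `x`-plane to the `z`-plane. -/
def zz (D : Dat) (x : ℂ) : ℂ := D.b 0 + D.sg * x

/-- from the `z`-plane to the `x`-plane. -/
def xx (D : Dat) (z : ℂ) : ℂ := (z - D.b 0) / D.sg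

/-- the `j`-th iterate of `f` in the `x`-plane. -/
def F (D : Dat) (j : ℕ) (x : ℂ) : ℂ := D.xx ((fun z => D.f.eval z)^[j] (D.zz x))

/-- the derivative of the `j`-th iterate at the pole `0`. -/
def A (D : Dat) (j : ℕ) : ℂ := deriv (D.F j) 0

/-- the points of the cycle in the `x`-plane. -/
def p (D : Dat) (l : ZMod D.k) : ℂ := D.xx (D.b l)

/-- the quadratic differential in the `x`-plane. -/
def B (D : Dat) (x : ℂ) : ℂ := D.sg ^ 2 * BB D.b D.g (D.zz x)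

/-- `v = (f^k - id)/lam` in the `x`-plane. -/
def v (D : Dat) (x : ℂ) : ℂ := (D.F D.k x - x) / D.lam

/-- the standing assumptions on one datum. -/
structure Good (n : ℕ) (ra : ℝ) (Cf : ℝ → ℝ) (D : Dat) : Prop where
  hn : 2 ≤ n
  hdeg : D.f.natDegree = n
  hk : 2 ≤ D.k
  cyc : PPS.IsCyc D.f D.b
  hrho : PPS.rho D.f D.b = Complex.exp D.lam
  lam0 : 0 < D.lam.re
  ex : PPS.Exact D.f D.b D.g
  mx : ∀ i, MaxPN D.b D.g i (D.ψ i)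
  mini : ∀ i, ‖deriv (D.ψ 0) 0‖ ≤ ‖deriv (D.ψ i) 0‖
  ra0 : 0 < ra
  hra : ∀ j, ‖D.b j‖ ≤ ra
  crit : ∃ y : ℂ, ‖y‖ ≤ ra ∧ PPS.fd D.f y = 0
  inv : ∀ R : ℝ, ra < R → ∀ y : ℂ, ‖D.f.eval y‖ < R → ‖y‖ < R
  her : ∀ R : ℝ, ra < R → ∫ z in ball (0 : ℂ) R, ‖PPS.er D.f D.b D.g z‖ ≤ Cf R * ‖D.lam‖

end Dat

/-- MAIN THEOREM. -/
def V3P_stmt : Prop := ∀ (n : ℕ) (ra : ℝ) (Cf : ℝ → ℝ), ∃ ε > (0 : ℝ), ∀ D : Dat,
  D.Good n ra Cf → ε ≤ ‖D.lam‖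

/-- a sequence of counterexamples. -/
structure Seq (n : ℕ) (ra : ℝ) (Cf : ℝ → ℝ) (D : ℕ → Dat) : Prop where
  good : ∀ m, (D m).Good n ra Cf
  lim : Tendsto (fun m => (D m).lam) atTop (𝓝 0)

/-- the limit set of the poles. -/
def Pin (D : ℕ → Dat) : Set ℂ :=
  {p | ∀ ε > (0 : ℝ), ∀ᶠ m in UF, ∃ l : ZMod (D m).k, ‖(D m).p l - p‖ < ε}

/-- the limit of `B`. -/
def Bin (D : ℕ → Dat) (x : ℂ) : ℂ := limUnder UF fun m => (D m).B x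

/-- the limit of `v`. -/
def vin (D : ℕ → Dat) (x : ℂ) : ℂ := limUnder UF fun m => (D m).v x

/-- the limit of `lam/|lam|`. -/
def tin (D : ℕ → Dat) : ℂ := limUnder UF fun m => (D m).lam / ‖(D m).lam‖

/-- the regular set: no poles, no zeros of the limit. -/
def Reg (D : ℕ → Dat) : Set ℂ := {x | x ∉ Pin D ∧ Bin D x ≠ 0}

/-! ## The chain property of section 5 -/

/-- [V3, section 5]: natural chart at `x` and tower of `k` levels over it with small errors. -/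
structure Ctl (D : Dat) (x : ℂ) (r C : ℝ) (χ : ℂ → ℂ) (G : ℕ → ℂ → ℂ) (Φ : ℂ → ℂ) : Prop where
  nat : IsNat D.b D.g χ (ball 0 (2 * r))
  val : χ 0 = D.zz x
  aff : ∀ w ∈ ball (0 : ℂ) (2 * r), ‖deriv χ w - deriv χ 0‖ ≤ ‖deriv χ 0‖ / 10
  lev : PPS.LevSys D.f D.b D.g G (ball 0 r) D.k
  g0 : EqOn (G 0) χ (ball 0 r)
  sum : ∀ w ∈ ball (0 : ℂ) r, ∑ q ∈ Finset.Icc 1 D.k, PPS.lev D.b D.g G q w ≤ C * ‖D.lam‖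
  phd : DifferentiableOn ℂ Φ (ball 0 r)
  phi : ∀ w ∈ ball (0 : ℂ) r, Φ w ∈ ball (0 : ℂ) (2 * r) ∧ ‖Φ w - w‖ ≤ C * ‖D.lam‖ ∧
    χ (Φ w) = G D.k w
  kc : ∀ q, 1 ≤ q → q ≤ D.k → ‖G q 0 - D.b (-(q : ZMod D.k))‖ ≤ C * ‖deriv (G q) 0‖

/-- the chain property at the point `x` of the limit plane. -/
def CTL (D : ℕ → Dat) (x : ℂ) : Prop :=
  ∃ r > (0 : ℝ), ∃ C > (0 : ℝ), ∀ᶠ m in UF, ∃ (χ : ℂ → ℂ) (G : ℕ → ℂ → ℂ) (Φ : ℂ → ℂ),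
    Ctl (D m) x r C χ G Φ

/-! ## The chain step of section 4 -/

/-- hypotheses of the chain step [V3, section 4]. -/
structure HC (n k : ℕ) [NeZero k] (f : Polynomial ℂ) (b g : ZMod k → ℂ) (ra R E : ℝ) (χ : ℂ → ℂ)
    (h r₀ η₀ : ℝ) (M : ℕ) (G0 : ℕ → ℂ → ℂ) : Prop where
  hn : 2 ≤ n
  hdeg : f.natDegree = n
  hk : 2 ≤ k
  cyc : PPS.IsCyc f b
  rho1 : 1 < ‖PPS.rho f b‖
  hra : ∀ j, ‖b j‖ ≤ ra
  hR : ra < R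
  posR : 0 < R
  inv : ∀ y : ℂ, ‖f.eval y‖ < R → ‖y‖ < R
  hE : 2 * Real.pi * Real.log ‖PPS.rho f b‖ + 4 * ∫ z in ball (0 : ℂ) R, ‖PPS.er f b g z‖ ≤ E
  h0 : 0 < h
  h1 : h ≤ 1
  nat : IsNat b g χ (ball 0 (16 * h))
  aff : ∀ w ∈ ball (0 : ℂ) (16 * h), ‖deriv χ w - deriv χ 0‖ ≤ ‖deriv χ 0‖ / 10
  mp : MapsTo χ (ball 0 h) (ball 0 R)
  r0 : 0 < r₀
  r1 : r₀ ≤ h / 2
  lev0 : PPS.LevSys f b g G0 (ball 0 r₀) k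
  g0 : EqOn (G0 0) χ (ball 0 r₀)
  eta : ∑ q ∈ Finset.Icc 1 k, PPS.lev b g G0 q 0 ≤ η₀
  exc : {q : ℕ | 1 ≤ q ∧ q < k ∧ ‖G0 q 0 - χ 0‖ < 8 * h * ‖deriv χ 0‖}.ncard ≤ M

/-- CS: the chain step [V3, section 4]. -/
def CS_stmt : Prop := ∀ (n M : ℕ) (h r₀ : ℝ), 2 ≤ n → 0 < h → 0 < r₀ → ∃ ε₁ > (0 : ℝ), ∃ C > (0 : ℝ),
  ∀ (k : ℕ) [NeZero k] (f : Polynomial ℂ) (b g : ZMod k → ℂ) (ra R E η₀ : ℝ) (χ : ℂ → ℂ)
    (G0 : ℕ → ℂ → ℂ), HC n k f b g ra R E χ h r₀ η₀ M G0 → E ≤ ε₁ → η₀ ≤ ε₁ →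
    ∃ G : ℕ → ℂ → ℂ, PPS.LevSys f b g G (ball 0 (3 * h / 4)) k ∧ EqOn (G 0) χ (ball 0 (3 * h / 4)) ∧
      (∀ q ≤ k, EqOn (G q) (G0 q) (ball 0 r₀)) ∧
      ∀ w ∈ closedBall (0 : ℂ) (h / 2), ∑ q ∈ Finset.Icc 1 k, PPS.lev b g G q w ≤ C * (E + η₀)

/-! ## The facts about the limit proved in sections 3 - 5 -/

/-- [V3, sections 3 - 5]: the facts used in sections 6 - 10. -/
structure LimOK (D : ℕ → Dat) : Prop where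
  P0 : (0 : ℂ) ∈ Pin D
  /-- separation (3.1) -/
  sep : ∃ c₀ > (0 : ℝ), ∀ (m : ℕ) (i l : ZMod (D m).k), i ≠ l → c₀ ≤ ‖(D m).p i - (D m).p l‖
  /-- (3.5) -/
  Bdiff : DifferentiableOn ℂ (Bin D) (Pin D)ᶜ
  Bconv : ∀ K : Set ℂ, IsCompact K → K ⊆ (Pin D)ᶜ → TendstoUniformlyOn (fun m => (D m).B) (Bin D) UF K
  gg : ∃ g : ℂ → ℂ, (∃ C : ℝ, ∀ p ∈ Pin D, ‖g p‖ ≤ C) ∧
    (∀ p ∈ Pin D, ∃ h : ℂ → ℂ, AnalyticAt ℂ h p ∧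
      ∀ᶠ x in 𝓝[≠] p, Bin D x = 1 / (x - p) ^ 2 + g p / (x - p) + h x) ∧
    ∀ x, x ∉ Pin D → iteratedDeriv 2 (Bin D) x =
      ∑' p : Pin D, (6 / (x - (p : ℂ)) ^ 4 + 2 * g p / (x - (p : ℂ)) ^ 3)
  /-- (5.4) -/
  vdiff : Differentiable ℂ (vin D)
  vconv : ∀ K : Set ℂ, IsCompact K → TendstoUniformlyOn (fun m => (D m).v) (vin D) UF K
  vzero : ∀ p ∈ Pin D, vin D p = 0 ∧ deriv (vin D) p = 1
  /-- (5.5) -/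
  inj : ∀ ρ > (0 : ℝ), ∀ᶠ m in UF, ∀ j ≤ (D m).k, InjOn ((D m).F j) (ball 0 ρ)
  small : ∀ ρ > (0 : ℝ), ∀ᶠ m in UF, ‖(D m).sg‖ * ρ ≤ 1
  /-- (5.6) -/
  A0 : ∀ᶠ m in UF, ∀ j ≤ (D m).k, (D m).A j ≠ 0
  aff : ∀ ρ > (0 : ℝ), ∀ ε > (0 : ℝ), ∀ᶠ m in UF, ∀ j ≤ (D m).k, ∀ x ∈ ball (0 : ℂ) ρ,
    ‖deriv ((D m).F j) x - (D m).A j‖ ≤ ε * ‖(D m).A j‖
  mini : ∀ ε > (0 : ℝ), ∀ᶠ m in UF, ∀ j ≤ (D m).k, 1 - ε ≤ ‖(D m).A j‖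
  bA : ∃ C : ℝ, ∀ᶠ m in UF, ∀ j, 1 ≤ j → j < (D m).k → ‖(D m).A j‖ ≤ C * ‖(D m).F j 0‖
  /-- (5.7) -/
  com : ∀ ρ > (0 : ℝ), ∀ ε > (0 : ℝ), ∀ᶠ m in UF, ∀ j ≤ (D m).k, ∀ x ∈ ball (0 : ℂ) ρ,
    ‖(D m).v ((D m).F j x) - deriv ((D m).F j) x * (D m).v x‖ ≤ ε * ‖(D m).A j‖
  /-- (5.8) -/
  iso : ∀ K : Set ℂ, IsCompact K → K ⊆ Reg D → ∀ ε > (0 : ℝ), ∀ᶠ m in UF, ∀ j ≤ (D m).k, ∀ x ∈ K,
    ‖deriv ((D m).F j) x ^ 2 * (D m).B ((D m).F j x) - Bin D x‖ ≤ ε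

/-- LOK: sections 3 - 5. -/
def LOK_stmt : Prop := ∀ (n : ℕ) (ra : ℝ) (Cf : ℝ → ℝ) (D : ℕ → Dat), Seq n ra Cf D → LimOK D

/-- END: sections 6 - 10. -/
def END_stmt : Prop := ∀ (n : ℕ) (ra : ℝ) (Cf : ℝ → ℝ) (D : ℕ → Dat), Seq n ra Cf D → LimOK D → False

end V3S
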