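import Pool.Agent.helper10.V3.Defs
import Pool.Agent.helper54.V3.SpecT

/-!
# Project v3: part L: the extremal cell and the limit (sections 3 and 5)

Paper proof /team-store/MP_af9036_V3_notes.md, quoted as [V3, (x.y)].
RULES. File `Pool/Agent/<seat>/V3/XX.lean`, `import Pool.Agent.helper10.V3.SpecL`, `namespace V3S`, the `open` line of this file,
`theorem XX (h : YY_stmt) ... : XX_stmt`. Hypotheses may be: any other statement of the v3: Spec files (no circles; the dependencies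
named in the docstrings are enough), in particular the tools `V3.KO0_stmt`, `V3.KO1_stmt`, `V3.KO3_stmt` (Koebe type facts; KO3 with `η = 1/2` is called
KO3 below), `V3.TUL_stmt`, `V3.TMO_stmt`, `V3.TDE_stmt`, `V3.TBX_stmt`, `V3.NPK_stmt`, `V3.NLP_stmt`, `V3.NORM_stmt`, `V3.PCO_stmt` of
Pool/Agent/helper54/V3/SpecT.lean and SpecE.lean, and every statement of `MPS`, `MQ`, `PPS` (all proved: Pool/Agent/helper36/MP/All.lean,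
Pool/Agent/helper74/MQ/All.lean, Pool/Agent/helper36/PP/All.lean). Auxiliary lemmas prefixed `XX_`. No `sorry`, no double quotes in comments.
`UF` is by definition the coercion of `hyperfilter ℕ` (so the statements of `V3` for `U : Ultrafilter ℕ` apply, `unfold UF`/`show`);
`UF_le : UF ≤ atTop` turns `∀ᶠ m in atTop` into `∀ᶠ m in UF`.
-/

set_option autoImplicit false

open Complex Metric Set Filter Topology MeasureTheory MPS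

noncomputable section

namespace V3S

/-! ## Tools -/

/-- NCH: natural charts where `B` is nearly constant (pure analysis).
PROOF. `s z` = holomorphic square root of `B` on `ball y ρ` with `‖s z/s y - 1‖ ≤ 1/30` (`s z = s y * √(B z/B y)`, principal root, as `‖B z/B y - 1‖ ≤ 1/20`), `S` a primitive with `S y = 0`: `S` is injective with
`S '' ball y ρ ⊇ ball 0 (9ρ‖s y‖/10)` (`S/s y` is near the identity: `‖S z/s y - (z - y)‖ ≤ ‖z-y‖/30`). `χ = S⁻¹` on this ball: `χ' = 1/s(χ)`, `‖χ' - χ' 0‖ ≤ ‖χ' 0‖/20`. -/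
def NCH_stmt : Prop := ∀ (B : ℂ → ℂ) (y : ℂ) (ρ : ℝ), 0 < ρ → DifferentiableOn ℂ B (ball y ρ) → B y ≠ 0 →
  (∀ z ∈ ball y ρ, ‖B z / B y - 1‖ ≤ 1 / 20) →
  ∃ χ : ℂ → ℂ, DifferentiableOn ℂ χ (ball 0 (9 * ρ * Real.sqrt ‖B y‖ / 10)) ∧ χ 0 = y ∧
    (∀ w ∈ ball (0 : ℂ) (9 * ρ * Real.sqrt ‖B y‖ / 10), χ w ∈ ball y ρ ∧ deriv χ w ^ 2 * B (χ w) = 1 ∧
      ‖deriv χ w - deriv χ 0‖ ≤ ‖deriv χ 0‖ / 10)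

/-- CAF: facts about nearly affine natural charts (radius `r`).
PROOF. `‖χ w - χ w' - χ' 0 (w - w')‖ ≤ ‖χ' 0‖‖w - w'‖/10` (mean value inequality on the convex ball for `χ - χ' 0 • id`): injective, and the two-sided bounds. Surjectivity on `ball (χ 0) (9 t ‖χ' 0‖/10)` for `t ≤ r`: contraction
`w ↦ w - (χ w - z)/χ' 0` on closed balls. `‖BB(χ w)‖ = 1/‖χ' w‖²` with `9/10 ≤ ‖χ' w‖/‖χ' 0‖ ≤ 11/10`. Last claim: Schwarz lemma for `χ' - χ' 0` on `ball 0 r`. -/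
def CAF_stmt : Prop := ∀ (k : ℕ) [NeZero k] (b g : ZMod k → ℂ) (χ : ℂ → ℂ) (r : ℝ), 0 < r →
  IsNat b g χ (ball 0 r) → (∀ w ∈ ball (0 : ℂ) r, ‖deriv χ w - deriv χ 0‖ ≤ ‖deriv χ 0‖ / 10) →
  deriv χ 0 ≠ 0 ∧ InjOn χ (ball 0 r) ∧
  (∀ w ∈ ball (0 : ℂ) r, ∀ w' ∈ ball (0 : ℂ) r,
    9 / 10 * ‖deriv χ 0‖ * ‖w - w'‖ ≤ ‖χ w - χ w'‖ ∧ ‖χ w - χ w'‖ ≤ 11 / 10 * ‖deriv χ 0‖ * ‖w - w'‖) ∧
  (∀ t : ℝ, 0 < t → t ≤ r → ball (χ 0) (9 / 10 * t * ‖deriv χ 0‖) ⊆ χ '' ball 0 t) ∧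
  (∀ z ∈ ball (χ 0) (9 / 10 * r * ‖deriv χ 0‖),
    0.8 ≤ ‖BB b g z‖ * ‖deriv χ 0‖ ^ 2 ∧ ‖BB b g z‖ * ‖deriv χ 0‖ ^ 2 ≤ 1.25) ∧
  (∀ w ∈ ball (0 : ℂ) r, ‖deriv χ w - deriv χ 0‖ ≤ ‖deriv χ 0‖ / 10 * (‖w‖ / r))

/-! ## Algebra of one datum -/

/-- BA1: the iterates in the `x`-plane.
PROOF. `sg ≠ 0`: `MaxPN.pn.der`. `F j` is the conjugate of the `j`-th iterate by the affine map `zz`; `xx (b (l + j)) = ...` by `IsCyc.step`. Chain rule. The derivative of the `k`-th iterate at `b l` is the product of `fd f (b i)` over the cycle, `rho = exp lam`. `lam ≠ 0` as `0 < Re lam`. -/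
def BA1_stmt : Prop := ∀ (n : ℕ) (ra : ℝ) (Cf : ℝ → ℝ) (D : Dat), D.Good n ra Cf →
  D.sg ≠ 0 ∧ D.lam ≠ 0 ∧ (∀ x, D.xx (D.zz x) = x) ∧ (∀ z, D.zz (D.xx z) = z) ∧ (∀ x, D.F 0 x = x) ∧
  (∀ i j x, D.F (i + j) x = D.F i (D.F j x)) ∧ (∀ j, Differentiable ℂ (D.F j)) ∧
  (∀ i j x, deriv (D.F (i + j)) x = deriv (D.F i) (D.F j x) * deriv (D.F j) x) ∧
  (∀ j x, deriv (D.F j) x = deriv ((fun z => D.f.eval z)^[j]) (D.zz x)) ∧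
  (∀ j x, D.zz (D.F j x) = (fun z => D.f.eval z)^[j] (D.zz x)) ∧
  (∀ (j : ℕ) (l : ZMod D.k), D.F j (D.p l) = D.p (l + j)) ∧ D.p 0 = 0 ∧
  (∀ j : ℕ, D.F j 0 = D.p j) ∧ Function.Injective D.p ∧ (∀ x, D.F D.k x = x + D.lam * D.v x) ∧
  (∀ l, deriv (D.F D.k) (D.p l) = Complex.exp D.lam)

/-- BA2: `B` in the `x`-plane; its exactness: the pull back by `F k` has the same principal parts.
PROOF. First: `zz x - b l = σ (x - p l)`. Fifth: exactness `g (i+1) = g i/f'(b i) - f''(b i)/f'(b i)²` says that `(f')² BB(f) - BB` is bounded near `b i`: with `y = b i + h`: `f y - b (i+1) = f' h (1 + (f''/(2f')) h + ..)`, `f'(y)² = f'² (1 + 2 (f''/f') h + ..)`, so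
`f'(y)²/(f y - b(i+1))² = h⁻² (1 + (f''/f') h + O(h²))`, `f'(y)² g(i+1)/(f y - b(i+1)) = h⁻¹ (f' g(i+1) + O(h))`, and `f''/f' + f' g (i+1) = g i`. Iterate along the cycle: `(F j)'² B(F j) - B` is bounded near every `p l` (punctured), for all `j`. -/
def BA2_stmt : Prop := ∀ (n : ℕ) (ra : ℝ) (Cf : ℝ → ℝ) (D : Dat), D.Good n ra Cf →
  (∀ x, D.B x = ∑ l, (1 / (x - D.p l) ^ 2 + D.sg * D.g l / (x - D.p l))) ∧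
  (∀ x, (∀ l, x ≠ D.p l) → DifferentiableAt ℂ D.B x) ∧
  (∀ x, (∀ l, x ≠ D.p l) → deriv (deriv D.B) x =
    ∑ l, (6 / (x - D.p l) ^ 4 + 2 * (D.sg * D.g l) / (x - D.p l) ^ 3)) ∧
  (∀ x l, D.zz x = D.b l ↔ x = D.p l) ∧
  (∀ (j : ℕ) (l : ZMod D.k), ∃ C : ℝ, ∀ᶠ x in 𝓝[≠] (D.p l),
    ‖deriv (D.F j) x ^ 2 * D.B (D.F j x) - D.B x‖ ≤ C)

/-- BA3: `v`. PROOF. BA1. -/
def BA3_stmt : Prop := ∀ (n : ℕ) (ra : ℝ) (Cf : ℝ → ℝ) (D : Dat), D.Good n ra Cf →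
  Differentiable ℂ D.v ∧ ∀ l, D.v (D.p l) = 0 ∧ deriv D.v (D.p l) = (Complex.exp D.lam - 1) / D.lam

/-- BA4: the standing assumptions of `PPS`; the bound of the scale.
PROOF. `log‖rho‖ = Re lam`. `‖σ‖ ≤ 8000‖b 0 - b 1‖ ≤ 16000 ra` by `MPS.NLB` with `r = 1`. -/
def BA4_stmt : Prop := ∀ (n : ℕ) (ra : ℝ) (Cf : ℝ → ℝ) (D : Dat), D.Good n ra Cf →
  (∀ R : ℝ, ra < R → PPS.SU n D.k D.f D.b D.g D.ψ ra R ((2 * Real.pi + 4 * |Cf R|) * ‖D.lam‖)) ∧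
  1 < ‖PPS.rho D.f D.b‖ ∧ Real.log ‖PPS.rho D.f D.b‖ = D.lam.re ∧ ‖D.sg‖ ≤ 16000 * ra

/-! ## The extremal cell (section 3) -/

/-- SEP [V3, (3.1)]. Uses `V3.KO1_stmt`, `MPS.NI`, `MPS.ND`.
PROOF. KO1 for `ψ i` on the unit disc: `ball (b i) (‖ψ_i' 0‖/C) ⊆ ψ i '' ball 0 1`. If `‖b i - b l‖ < ‖ψ_i' 0‖/C` then `b l ∈ ψ i '' ball 0 1` and `b l = ψ l 0`: contradiction to ND. So `‖b i - b l‖ ≥ ‖ψ_i' 0‖/C ≥ ‖σ‖/C`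
(`Good.mini`), and `‖p l‖ = ‖b l - b 0‖/‖σ‖ ≥ ‖ψ_l' 0‖/(C ‖σ‖)`. -/
def SEP_stmt : Prop := ∃ c₀ : ℝ, 0 < c₀ ∧ ∀ (n : ℕ) (ra : ℝ) (Cf : ℝ → ℝ) (D : Dat), D.Good n ra Cf →
  (∀ i l, i ≠ l → c₀ ≤ ‖D.p i - D.p l‖) ∧
  (∀ l, l ≠ 0 → c₀ * (‖deriv (D.ψ l) 0‖ / ‖D.sg‖) ≤ ‖D.p l‖)

/-- GBD [V3, (3.2)]. Uses `V3.KO3_stmt`, `MPS.NI`.
PROOF. `ψ = ψ i`, `ψ u - b i = u φ(u)`, `φ 0 = a₁ = ψ' 0`, `φ' 0 = ψ'' 0/2`. For `u ≠ 0` small and `z = ψ u`: `BB z = 1/(u ψ')²`, so `(z - b i)(BB z - 1/(z - b i)²) = φ/(u (φ+uφ')²) - 1/(uφ) = -φ'(2φ + uφ')/(φ (φ+uφ')²) → -ψ'' 0/a₁²` (`u → 0`). The left side tends to `g i`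
(the other poles are regular at `b i`). So `g i = -ψ'' 0/a₁²`, `‖g i‖ ≤ C/‖a₁‖ ≤ C/‖σ‖` by KO3 (first part, radius `1`; `iteratedDeriv 2 = deriv (deriv ·)`) and `mini`. -/
def GBD_stmt : Prop := ∃ C : ℝ, 0 < C ∧ ∀ (n : ℕ) (ra : ℝ) (Cf : ℝ → ℝ) (D : Dat), D.Good n ra Cf →
  ∀ l, ‖D.sg * D.g l‖ ≤ C

/-- PTS [V3, (3.3)]: two points where `B` is bounded. Uses `V3.KO1_stmt`, `V3.KO3_stmt`, `MPS.NI`, `MPS.ND`, BA1.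
PROOF. `x = xx (ψ_0 (1/4))`, `y = xx (ψ_0 (-1/4))`; in the `x`-plane `ψ_0` is normalised (`ψ 0 = 0`, `ψ' 0 = 1`). KO3 (`a = 0`, `r = 1`): `‖x‖, ‖y‖ ≤ C`, `1/C ≤ ‖ψ'(±1/4)‖ ≤ C`, `B(ψ u) = 1/(u ψ' u)²` (`PN.eq`). KO1 on `ball (1/4) (1/4)` (contained in the unit disc, without `0` and `-1/4`):
`ball x (1/(4C²)) ⊆ ψ_0 '' ball (1/4) (1/4)`, which contains neither `y` nor a pole `p l` (`l = 0`: injectivity; `l ≠ 0`: `b l = ψ_l 0`, ND). Same for `y`. -/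
def PTS_stmt : Prop := ∃ C : ℝ, 1 ≤ C ∧ ∀ (n : ℕ) (ra : ℝ) (Cf : ℝ → ℝ) (D : Dat), D.Good n ra Cf →
  ∃ x y : ℂ, ‖x‖ ≤ C ∧ ‖y‖ ≤ C ∧ 1 / C ≤ ‖x - y‖ ∧ ‖D.B x‖ ≤ C ∧ ‖D.B y‖ ≤ C ∧
    1 / C ≤ ‖D.B x‖ ∧ (∀ l, 1 / C ≤ ‖x - D.p l‖ ∧ 1 / C ≤ ‖y - D.p l‖) ∧
    D.zz x = D.ψ 0 (1 / 4)

/-- CNF: the configuration of the poles satisfies the assumptions of `V3.NORM_stmt` [V3, (3.4)]. Uses SEP, GBD, PTS, BA2.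
PROOF. `c = min c₀ (1/C)`; `x₁ m, x₂ m` = the points of PTS; `V3.BF (D m).p (σ g) = (D m).B` by BA2. -/
def CNF_stmt : Prop := ∀ (n : ℕ) (ra : ℝ) (Cf : ℝ → ℝ) (D : ℕ → Dat), Seq n ra Cf D →
  ∃ (c C : ℝ) (x₁ x₂ : ℕ → ℂ), V3.Conf (hyperfilter ℕ) (fun m => ZMod (D m).k) (fun m => (D m).p)
    (fun m l => (D m).sg * (D m).g l) c C x₁ x₂ ∧
    (∀ m, (D m).zz (x₁ m) = (D m).ψ 0 (1 / 4)) ∧ ∀ m, c ≤ ‖(D m).B (x₁ m)‖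

/-- LPI: the limit set of the poles. Uses SEP, BA1, `V3.NLP_stmt`, `V3.PCO_stmt`.
PROOF. (1) choose for every `m` the label nearest to `q` (finite type). `0 = p 0`. The rest: NLP, PCO, (5) by SEP (uniqueness of the label). -/
def LPI_stmt : Prop := ∀ (n : ℕ) (ra : ℝ) (Cf : ℝ → ℝ) (D : ℕ → Dat), Seq n ra Cf D →
  Pin D = V3.LP (hyperfilter ℕ) (fun m => ZMod (D m).k) (fun m => (D m).p) ∧ (0 : ℂ) ∈ Pin D ∧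
  (∀ x, x ∉ Pin D → ∃ r > (0 : ℝ), ∀ᶠ m in UF, ∀ l : ZMod (D m).k, r ≤ ‖(D m).p l - x‖) ∧
  IsClosed (Pin D) ∧ (Pin D).Countable ∧ IsPreconnected (Pin D)ᶜ ∧
  (∃ c₀ > (0 : ℝ), (∀ p ∈ Pin D, ∀ p' ∈ Pin D, p ≠ p' → c₀ ≤ ‖p - p'‖) ∧
    (∀ p ∈ Pin D, ∀ ε > (0 : ℝ), ∀ᶠ m in UF, ∀ l : ZMod (D m).k, ‖(D m).p l - p‖ < c₀ / 4 →
      ‖(D m).p l - p‖ < ε))

/-- LMB: the limit of `B` [V3, (3.5)]. Uses CNF, LPI, BA2, `V3.NORM_stmt`, `V3.TDE_stmt`.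
PROOF. NORM gives a function `B` with `BF → B` locally uniformly on `(Pin D)ᶜ` (LPI (1)); `Bin D x = limUnder = B x` there (`Tendsto.limUnder_eq`), so `Bin D` has the properties of `B` on the open set `(Pin D)ᶜ` (`iteratedDeriv 2`: equality near the point).
Compact form: `tendstoLocallyUniformlyOn_iff_forall_isCompact`. Last two claims: LPI (3), BA2; TDE. -/
def LMB_stmt : Prop := ∀ (n : ℕ) (ra : ℝ) (Cf : ℝ → ℝ) (D : ℕ → Dat), Seq n ra Cf D →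
  DifferentiableOn ℂ (Bin D) (Pin D)ᶜ ∧
  (∀ K : Set ℂ, IsCompact K → K ⊆ (Pin D)ᶜ → TendstoUniformlyOn (fun m => (D m).B) (Bin D) UF K) ∧
  (∃ g : ℂ → ℂ, (∃ C : ℝ, ∀ p ∈ Pin D, ‖g p‖ ≤ C) ∧
    (∀ p ∈ Pin D, ∃ h : ℂ → ℂ, AnalyticAt ℂ h p ∧
      ∀ᶠ x in 𝓝[≠] p, Bin D x = 1 / (x - p) ^ 2 + g p / (x - p) + h x) ∧
    ∀ x, x ∉ Pin D → iteratedDeriv 2 (Bin D) x =
      ∑' p : Pin D, (6 / (x - (p : ℂ)) ^ 4 + 2 * g p / (x - (p : ℂ)) ^ 3)) ∧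
  (∀ x, x ∉ Pin D → ∃ r > (0 : ℝ), ∀ᶠ m in UF, DifferentiableOn ℂ (D m).B (ball x r) ∧
    ∀ (y : ℂ), y ∈ ball x r → ∀ l : ZMod (D m).k, y ≠ (D m).p l) ∧
  (∀ K : Set ℂ, IsCompact K → K ⊆ (Pin D)ᶜ →
    TendstoUniformlyOn (fun m => deriv (D m).B) (deriv (Bin D)) UF K)

/-- REG: topology of the regular set. Uses LMB, LPI.
PROOF. `(Pin D)ᶜ` is open and connected (countable complement: `Set.Countable.isConnected_compl_of_one_lt_rank`), `Bin` is holomorphic there and not identically `0` (it tends to `∞` at `0 ∈ Pin`), so its zeros are isolated in `(Pin D)ᶜ`; they do not accumulate at a point of `Pin` (principal part). So `Z = Pin ∪ zeros` is a closed set without accumulation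
points, hence countable, `Reg = Zᶜ`. Circles: near every `x` the set `Z \ {x}` has positive distance from `x`. -/
def REG_stmt : Prop := ∀ (n : ℕ) (ra : ℝ) (Cf : ℝ → ℝ) (D : ℕ → Dat), Seq n ra Cf D →
  IsOpen (Reg D) ∧ IsPreconnected (Reg D) ∧
  (∀ x : ℂ, ∃ ε > (0 : ℝ), ∀ y ∈ ball x ε, y ≠ x → y ∈ Reg D)

/-! ## Propagation (section 5) -/

/-- STA: the start of the propagation [V3, (5.1)]. Uses `START_stmt` (Pool/Agent/helper36/V3/SpecP.lean), CNF, LPI, LMB, BA1.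
PROOF. START gives `x₀` = limit of `x₁ m = xx (ψ_0 (1/4))` along `UF` and `CTL D x₀`. `x₀ ∈ Reg`: the poles have distance `≥ c` from `x₁ m` (Conf.hx), so `x₀ ∉ Pin` (if `p l → x₀` then `‖x₁ m - p l‖ → 0`); `B` is holomorphic near `x₀` and converges uniformly on a small closed disc, so
`B (x₁ m) → Bin x₀` and `‖B (x₁ m)‖ ≥ c`. -/
def STA_stmt : Prop := ∀ (n : ℕ) (ra : ℝ) (Cf : ℝ → ℝ) (D : ℕ → Dat), Seq n ra Cf D →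
  ∃ x₀ ∈ Reg D, CTL D x₀

/-- CHT: uniform natural charts near a regular point. Uses NCH, LMB, REG, BA2.
PROOF. `Bin` is continuous and `≠ 0` at `x`, `Reg` is open: choose `ρ ≤ 1` with `closedBall x (3ρ) ⊆ Reg` and `‖Bin z/Bin x - 1‖ ≤ 1/100` there. Eventually `‖B z/B y - 1‖ ≤ 1/20` for `y, z ∈ closedBall x (2ρ)` (uniform convergence), no poles in it. NCH for `(D m).B` at `y ∈ ball x ρ` with radius `ρ`: a chart `χ` in the `x`-plane on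
`ball 0 (9ρ√‖B y‖/10)`, `‖B y‖ ≥ ‖Bin x‖/2`; `χ' = zz ∘ χ` is natural for `b, g`: `(σ χ')² BB(zz χ) = χ'² B(χ) = 1`. `16 h ≤ ρ √‖Bin x‖/2`, `h ≤ 1`. `‖deriv χ' 0‖ = ‖σ‖/√‖B y‖`. -/
def CHT_stmt : Prop := ∀ (n : ℕ) (ra : ℝ) (Cf : ℝ → ℝ) (D : ℕ → Dat), Seq n ra Cf D → ∀ x ∈ Reg D,
  ∃ h > (0 : ℝ), ∃ η > (0 : ℝ), ∃ C ≥ (1 : ℝ), h ≤ 1 ∧ ∀ᶠ m in UF, ∀ y ∈ ball x η, ∃ χ : ℂ → ℂ,
    IsNat (D m).b (D m).g χ (ball 0 (16 * h)) ∧ χ 0 = (D m).zz y ∧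
    (∀ w ∈ ball (0 : ℂ) (16 * h), ‖deriv χ w - deriv χ 0‖ ≤ ‖deriv χ 0‖ / 10) ∧
    ‖(D m).sg‖ / C ≤ ‖deriv χ 0‖ ∧ ‖deriv χ 0‖ ≤ C * ‖(D m).sg‖

/-- EXB: bound of the number of exceptional labels [V3, (5.2)]. Uses CAF, SEP, `V3.NPK_stmt`, BA1, `PPS.LV`, `PPS.LEA`.
PROOF. Let `q` be in the set, `s = ‖deriv χ 0‖`. `‖τ_q 0‖ ≤ 1 + ∑ lev ≤ 2` (`PPS.LV` (4), `C‖lam‖ ≤ 1`), `τ_q 0 = (G q)'(0)² BB(G q 0)`, `‖BB(G q 0)‖ s² ≥ 0.8` (CAF with `r = 16h`: `8h ≤ 0.9·16h`), so `‖(G q)' 0‖ ≤ 1.6 s`; (kc): `‖b (-q) - χ 0‖ ≤ (8h + 1.6 C) s ≤ (8 + 1.6 C) C ‖σ‖`, i.e. `‖p (-q) - y‖ ≤ (8 + 1.6C) C`.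
NPK for the points `p l - y`; `q ↦ -q` is injective on `{1 ≤ q < k}`. -/
def EXB_stmt : Prop := ∀ C : ℝ, 1 ≤ C → ∃ M : ℕ, ∀ (n : ℕ) (ra : ℝ) (Cf : ℝ → ℝ) (D : Dat),
  D.Good n ra Cf → ∀ (y : ℂ) (h r : ℝ) (χ : ℂ → ℂ) (G : ℕ → ℂ → ℂ), 0 < h → h ≤ 1 → 0 < r →
  IsNat D.b D.g χ (ball 0 (16 * h)) → χ 0 = D.zz y →
  (∀ w ∈ ball (0 : ℂ) (16 * h), ‖deriv χ w - deriv χ 0‖ ≤ ‖deriv χ 0‖ / 10) →
  ‖deriv χ 0‖ ≤ C * ‖D.sg‖ → PPS.LevSys D.f D.b D.g G (ball 0 r) D.k → G 0 0 = χ 0 →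
  ∑ q ∈ Finset.Icc 1 D.k, PPS.lev D.b D.g G q 0 ≤ 1 →
  (∀ q, 1 ≤ q → q ≤ D.k → ‖G q 0 - D.b (-(q : ZMod D.k))‖ ≤ C * ‖deriv (G q) 0‖) →
  {q : ℕ | 1 ≤ q ∧ q < D.k ∧ ‖G q 0 - χ 0‖ < 8 * h * ‖deriv χ 0‖}.ncard ≤ M

/-- SGN: two natural charts with the same centre agree up to sign. Uses `MPS.NU`. -/
def SGN_stmt : Prop := ∀ (k : ℕ) [NeZero k] (b g : ZMod k → ℂ) (χ χ₁ : ℂ → ℂ) (r r₁ : ℝ), 0 < r →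
  0 < r₁ → IsNat b g χ (ball 0 r) → IsNat b g χ₁ (ball 0 r₁) → χ 0 = χ₁ 0 →
  ∃ χ₂ : ℂ → ℂ, IsNat b g χ₂ (ball 0 r) ∧ χ₂ 0 = χ 0 ∧ ‖deriv χ₂ 0‖ = ‖deriv χ 0‖ ∧
    EqOn χ₂ χ₁ (ball 0 (min r r₁)) ∧
    ((∀ w ∈ ball (0 : ℂ) r, ‖deriv χ w - deriv χ 0‖ ≤ ‖deriv χ 0‖ / 10) →
      ∀ w ∈ ball (0 : ℂ) r, ‖deriv χ₂ w - deriv χ₂ 0‖ ≤ ‖deriv χ₂ 0‖ / 10)

/-- NIX: continuation of the near identity statement [V3, (5.2)]. Uses CAF, `PPS.LV`, `PPS.LEA`.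
PROOF. `τ = τ_k` is holomorphic on `ball 0 h'`, `‖τ - 1‖ ≤ η ≤ 1/100` (`PPS.LV` (4)). `σ = √τ` (principal), `‖σ - 1‖ ≤ η`. `Φ w = Φ₁ 0 + ∫_0^w σ` (primitive on the ball): `‖Φ w - w‖ ≤ ‖Φ₁ 0‖ + h' η`. Near `0`: `χ(Φ₁) = G k` gives `Φ₁'^2 = τ` (chain rule, `IsNat.eq`), and `‖Φ₁' 0 - 1‖ ≤ 2η/r ≤ 1/2` (Cauchy on `ball 0 (r/2)`),
so `Φ₁' = σ` near `0` and `Φ₁ = Φ` near `0`. `χ ∘ Φ` (defined as `Φ w ∈ ball 0 (16h)`: `‖Φ w‖ ≤ h' + 2·η < 16 h`) and `G k` are holomorphic on `ball 0 h'` and agree near `0`: identity theorem. -/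
def NIX_stmt : Prop := ∀ (k : ℕ) [NeZero k] (f : Polynomial ℂ) (b g : ZMod k → ℂ) (χ : ℂ → ℂ)
  (G : ℕ → ℂ → ℂ) (Φ₁ : ℂ → ℂ) (h h' r η : ℝ), 1 ≤ f.natDegree → PPS.IsCyc f b → 0 < h → h ≤ 1 →
  0 < h' → h' ≤ h → 0 < r → r ≤ h' → 0 ≤ η → η ≤ h / 100 → η ≤ r / 100 → η ≤ 1 / 100 →
  IsNat b g χ (ball 0 (16 * h)) → PPS.LevSys f b g G (ball 0 h') k →
  (∀ w ∈ ball (0 : ℂ) h', ∑ q ∈ Finset.Icc 1 k, PPS.lev b g G q w ≤ η) →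
  DifferentiableOn ℂ Φ₁ (ball 0 r) →
  (∀ w ∈ ball (0 : ℂ) r, Φ₁ w ∈ ball (0 : ℂ) (16 * h) ∧ ‖Φ₁ w - w‖ ≤ η ∧ χ (Φ₁ w) = G k w) →
  ∃ Φ : ℂ → ℂ, DifferentiableOn ℂ Φ (ball 0 h') ∧
    ∀ w ∈ ball (0 : ℂ) h', Φ w ∈ ball (0 : ℂ) (16 * h) ∧ ‖Φ w - w‖ ≤ 2 * η ∧ χ (Φ w) = G k w

/-- REC: change of the centre. Uses CAF, `V3.KO3_stmt`, BA1, NIX.
PROOF. `s = ‖deriv χ 0‖`. `zz y' = χ w'` with `‖w'‖ < h/4` (CAF: `ball (χ 0) (9/10·(h/4) s) ⊆ χ '' ball 0 (h/4)`, `‖zz y' - zz y‖ = ‖σ‖‖y' - y‖ ≤ ‖σ‖ h/(10 C₁) ≤ s h/10`). New data with `r' = h/8`: `χ' w = χ (w' + w)` on `ball 0 (h/4)` (`aff`: CAF last claim with `r = 16 h`: `‖χ'(w'+w) - χ'(w')‖ ≤ (s/10)(‖w'+w‖ + ‖w'‖)/(16h) ≤ s/100`,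
`‖χ' w'‖ ≥ 9s/10`); `G' q w = G q (w' + w)`, `LevSys` and `lev` translate; `Φ' w = Φ (w' + w) - w'`, with `Φ` on `ball 0 (h/2)` from NIX (`h' = h/2`), `‖Φ' w - w‖ ≤ 2η < h/8`. (kc): `G q` is injective on `ball 0 (h/2)` (the `q`-th iterate of `f` maps `G q w` to `G 0 w = χ w`, and `χ` is injective, CAF); KO3 for `G q` on `ball 0 (h/2)`, `‖w'‖ < h/4`:
`‖G q w' - b(-q)‖ ≤ ‖G q w' - G q 0‖ + C‖(G q)' 0‖ ≤ (C_K h/4 + C) ‖(G q)' 0‖ ≤ (C_K + C) C_K ‖(G q)' w'‖`. -/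
def REC_stmt : Prop := ∃ CK : ℝ, 1 ≤ CK ∧ ∀ (n : ℕ) (ra : ℝ) (Cf : ℝ → ℝ) (D : Dat),
  D.Good n ra Cf → ∀ (y y' : ℂ) (h r C C₁ η : ℝ) (χ : ℂ → ℂ) (G : ℕ → ℂ → ℂ) (Φ₁ : ℂ → ℂ), 0 < h → h ≤ 1 →
  0 < r → r ≤ h / 2 → 1 ≤ C → 1 ≤ C₁ → 0 ≤ η → η ≤ h / 100 → η ≤ r / 100 →
  IsNat D.b D.g χ (ball 0 (16 * h)) → χ 0 = D.zz y →
  (∀ w ∈ ball (0 : ℂ) (16 * h), ‖deriv χ w - deriv χ 0‖ ≤ ‖deriv χ 0‖ / 10) →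
  ‖D.sg‖ / C₁ ≤ ‖deriv χ 0‖ → ‖y' - y‖ ≤ h / (10 * C₁) →
  PPS.LevSys D.f D.b D.g G (ball 0 (h / 2)) D.k → EqOn (G 0) χ (ball 0 (h / 2)) →
  (∀ w ∈ ball (0 : ℂ) (h / 2), ∑ q ∈ Finset.Icc 1 D.k, PPS.lev D.b D.g G q w ≤ η) →
  DifferentiableOn ℂ Φ₁ (ball 0 r) →
  (∀ w ∈ ball (0 : ℂ) r, Φ₁ w ∈ ball (0 : ℂ) (16 * h) ∧ ‖Φ₁ w - w‖ ≤ η ∧ χ (Φ₁ w) = G D.k w) →
  (∀ q, 1 ≤ q → q ≤ D.k → ‖G q 0 - D.b (-(q : ZMod D.k))‖ ≤ C * ‖deriv (G q) 0‖) →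
  ∀ C' : ℝ, CK * (CK + C) ≤ C' → 2 * η ≤ C' * ‖D.lam‖ →
  ∃ (χ' : ℂ → ℂ) (G' : ℕ → ℂ → ℂ) (Φ' : ℂ → ℂ), Ctl D y' (h / 8) C' χ' G' Φ'

/-- STP: the step of the propagation [V3, (5.2)]. Uses CHT, SGN, EXB, CS_stmt, REC, BA4.
PROOF. `h, η₁, C₁` from CHT; `η = min η₁ (h/(20 C₁))`, `η ≤ 1`. Let `y ∈ ball x η` with `CTL D y` (`r, C`, w.l.o.g. `C ≥ C₁`), `y' ∈ ball x η`. Eventually: chart `χ` at `y` on `ball 0 (16h)` (CHT) and `Ctl (D m) y r C χ₁ G₁ Φ₁`. SGN: `χ₂` on `ball 0 (16 h)`, equal to `χ₁` on `ball 0 (min (16h) (2r))`. `r₀ = min r (h/2)`. `M` from EXB (constant `C`).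
`R = ra + 16000 ra (‖x‖ + 1) + 32000 ra C₁ + 1`: `χ₂ '' ball 0 h ⊆ ball 0 R` (`‖zz y‖ ≤ ra + ‖σ‖(‖x‖+1)`, `‖σ‖ ≤ 16000 ra`, CAF). `HC` holds with `E = (2π + 4|Cf R|)‖lam‖` (BA4), `η₀ = C‖lam‖` (eventually `≤ 1`), `G0 = G₁`. CS: constants `ε₁`, `C₂` for `n, M, h, r₀`; eventually `E, η₀ ≤ ε₁` (`lam → 0`, `UF_le`). We get `G` on
`ball 0 (3h/4)` with `∑ lev ≤ C₂(E + η₀) ≤ C₃‖lam‖` on `ball 0 (h/2)`, `G q = G₁ q` on `ball 0 r₀` (so the values and derivatives at `0` agree: (kc)). REC with `r := r₀`, `Φ₁`, `η := max C C₃ * ‖lam‖` (eventually `≤ h/100, r₀/100`; `‖Φ₁ w‖ ≤ r₀ + η < min (16h) (2r)`, where `χ₂ = χ₁`), `‖y' - y‖ < 2η ≤ h/(10 C₁)`,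
`C' = max (CK (CK + C)) (2 max C C₃)`. -/
def STP_stmt : Prop := ∀ (n : ℕ) (ra : ℝ) (Cf : ℝ → ℝ) (D : ℕ → Dat), Seq n ra Cf D → ∀ x ∈ Reg D,
  ∃ η > (0 : ℝ), ∀ y ∈ ball x η, CTL D y → ∀ y' ∈ ball x η, CTL D y'

/-- ALC: the chain property holds on the regular set. Uses STA, STP, REG.
PROOF. `{x ∈ Reg | CTL D x}` and `{x ∈ Reg | ¬ CTL D x}` are open by STP, `Reg` is preconnected, the first one is not empty. -/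
def ALC_stmt : Prop := ∀ (n : ℕ) (ra : ℝ) (Cf : ℝ → ℝ) (D : ℕ → Dat), Seq n ra Cf D → ∀ x ∈ Reg D, CTL D x

/-- CSZ: size of the charts. Uses LMB, BA1.
PROOF. `χ'(0)² BB(zz x) = 1`, so `‖χ'(0)‖² ‖B x‖ = ‖σ‖²`, and `(D m).B x → Bin D x ≠ 0`. -/
def CSZ_stmt : Prop := ∀ (n : ℕ) (ra : ℝ) (Cf : ℝ → ℝ) (D : ℕ → Dat), Seq n ra Cf D → ∀ x ∈ Reg D,
  ∃ C ≥ (1 : ℝ), ∀ᶠ m in UF, ∀ (χ : ℂ → ℂ) (r : ℝ), 0 < r → IsNat (D m).b (D m).g χ (ball 0 r) →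
    χ 0 = (D m).zz x → ‖(D m).sg‖ / C ≤ ‖deriv χ 0‖ ∧ ‖deriv χ 0‖ ≤ C * ‖(D m).sg‖

/-- PHS: surjectivity of `Φ` and of the charts, in the `x`-plane. Uses CSZ, CAF, BA1.
PROOF. `s = ‖deriv χ 0‖`, CAF with radius `2r`: `ball (χ 0) (9/10·(r/8) s) ⊆ χ '' ball 0 (r/8)`; with `ρ = 9 r/(80 C₁)` and `y ∈ ball x ρ`: `zz y = χ u`, `‖u‖ < r/8`. `Φ '' closedBall 0 (r/2) ⊇ ball (Φ 0) (r/5)` for `C‖lam‖ ≤ r/100` (`DiffContOnCl.ball_subset_image_closedBall` with `ε = 2r/5`), and `‖u - Φ 0‖ < r/5`: `u = Φ w`. So `zz y = χ (Φ w) = G k w`.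
By the relation of the levels the `k`-th iterate maps `G k w` to `G 0 w = χ w`. -/
def PHS_stmt : Prop := ∀ (n : ℕ) (ra : ℝ) (Cf : ℝ → ℝ) (D : ℕ → Dat), Seq n ra Cf D → ∀ x ∈ Reg D, CTL D x →
  ∃ r > (0 : ℝ), ∃ C > (0 : ℝ), ∃ ρ > (0 : ℝ), ∀ᶠ m in UF, ∃ (χ : ℂ → ℂ) (G : ℕ → ℂ → ℂ) (Φ : ℂ → ℂ),
    Ctl (D m) x r C χ G Φ ∧ ‖deriv χ 0‖ ≤ C * ‖(D m).sg‖ ∧
    ∀ y ∈ ball x ρ, ∃ w ∈ ball (0 : ℂ) r, (D m).zz y = G (D m).k w ∧ (D m).zz y = χ (Φ w) ∧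
      (D m).zz ((D m).F (D m).k y) = χ w

/-- VLO: `v` is locally bounded on the regular set [V3, (5.3)]. Uses PHS, CAF, BA1.
PROOF. `σ (F k y - y) = χ w - χ (Φ w)`, `‖..‖ ≤ 11/10 ‖χ' 0‖ C‖lam‖ ≤ 1.1 C² ‖σ‖‖lam‖` (CAF), so `‖v y‖ ≤ 1.1 C²`. -/
def VLO_stmt : Prop := ∀ (n : ℕ) (ra : ℝ) (Cf : ℝ → ℝ) (D : ℕ → Dat), Seq n ra Cf D → ∀ x ∈ Reg D, CTL D x →
  ∃ r > (0 : ℝ), ∃ C : ℝ, ∀ᶠ m in UF, ∀ y ∈ ball x r, ‖(D m).v y‖ ≤ C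

/-- VBD: `v` is bounded on bounded sets [V3, (5.4)]. Uses ALC, VLO, REG, BA3, `V3.TBX_stmt`.
PROOF. For every `x ∈ ℂ` there is a circle `sphere x r ⊆ Reg` (REG); it is compact, so `v` is eventually bounded on it (finitely many balls of VLO, ALC), and by the maximum principle (`v` is entire, BA3) on `ball x r`. `closedBall 0 ρ` is covered by finitely many of these balls. -/
def VBD_stmt : Prop := ∀ (n : ℕ) (ra : ℝ) (Cf : ℝ → ℝ) (D : ℕ → Dat), Seq n ra Cf D → ∀ ρ > (0 : ℝ),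
  ∃ C : ℝ, ∀ᶠ m in UF, ∀ x ∈ ball (0 : ℂ) ρ, ‖(D m).v x‖ ≤ C

/-- VLM: the limit of `v`. Uses VBD, `V3.TMO_stmt`, `V3.TDE_stmt`, BA3, LPI.
PROOF. TMO with `Ω = univ`; the limit is `vin D` (`Tendsto.limUnder_eq`). `p ∈ Pin D`: labels `l m` with `p (l m) → p`; `v (p l) = 0`, `v' (p l) = (exp lam - 1)/lam → 1`, uniform convergence of `v` and `v'` near `p`, continuity of the limits. -/
def VLM_stmt : Prop := ∀ (n : ℕ) (ra : ℝ) (Cf : ℝ → ℝ) (D : ℕ → Dat), Seq n ra Cf D →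
  Differentiable ℂ (vin D) ∧
  (∀ K : Set ℂ, IsCompact K → TendstoUniformlyOn (fun m => (D m).v) (vin D) UF K ∧
    TendstoUniformlyOn (fun m => deriv (D m).v) (deriv (vin D)) UF K) ∧
  (∀ p ∈ Pin D, vin D p = 0 ∧ deriv (vin D) p = 1)

/-- INJ: injectivity of the iterates [V3, (5.5)]. Uses VBD, BA1, BA3, `V3.KO0_stmt`.
PROOF. `‖v‖ ≤ C` on `ball 0 (ρ+1)`, so `‖v'‖ ≤ C` on `ball 0 ρ`, and `F k = id + lam v` is injective there when `‖lam‖ C < 1` (`‖v x - v y‖ ≤ C‖x-y‖`). `F k = F (k - j) ∘ F j`. Second claim: `y` critical (`Good.crit`), `x = xx y`, `‖x‖ ≤ 2 ra/‖σ‖`; `deriv (F 1) x = fd f y = 0`. If `‖σ‖ρ > 1` then `‖x‖ < 2 ra ρ`, but `F 1` is injective on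
`ball 0 (2 ra ρ)`, so its derivative has no zero there (KO0). -/
def INJ_stmt : Prop := ∀ (n : ℕ) (ra : ℝ) (Cf : ℝ → ℝ) (D : ℕ → Dat), Seq n ra Cf D → ∀ ρ > (0 : ℝ),
  (∀ᶠ m in UF, ∀ j ≤ (D m).k, InjOn ((D m).F j) (ball 0 ρ)) ∧ ∀ᶠ m in UF, ‖(D m).sg‖ * ρ ≤ 1

/-- AFF: the iterates are nearly affine [V3, (5.6)]. Uses INJ, BA1, `V3.KO0_stmt`, `V3.KO3_stmt`.
PROOF. KO3 (`η = 1/2`) on `ball 0 ρ'` with `ρ' = max (2ρ) (Cρ/ε)`: `‖F' x - F' 0‖ ≤ C (‖x‖/ρ') ‖F' 0‖ ≤ ε ‖A j‖` for `‖x‖ < ρ ≤ ρ'/2`. -/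
def AFF_stmt : Prop := ∀ (n : ℕ) (ra : ℝ) (Cf : ℝ → ℝ) (D : ℕ → Dat), Seq n ra Cf D →
  (∀ᶠ m in UF, ∀ j ≤ (D m).k, (D m).A j ≠ 0) ∧
  ∀ ρ > (0 : ℝ), ∀ ε > (0 : ℝ), ∀ᶠ m in UF, ∀ j ≤ (D m).k, ∀ x ∈ ball (0 : ℂ) ρ,
    ‖deriv ((D m).F j) x - (D m).A j‖ ≤ ε * ‖(D m).A j‖

/-- MNI: the extremal cell. Uses `KRD_stmt` (Pool/Agent/helper36/V3/SpecP.lean), SEP, BA1.
PROOF. `‖ψ_j' 0‖ ≥ ‖σ‖` (`Good.mini`), so `log‖A j‖ ≥ -η` (KRD; `lam → 0` along `UF`). Second: SEP (second part, `l = j ≠ 0` for `1 ≤ j < k`) and KRD with `η = log 2`: `‖A j‖ ≤ 2 ‖ψ_j' 0‖/‖σ‖ ≤ (2/c₀) ‖p j‖ = (2/c₀) ‖F j 0‖`. -/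
def MNI_stmt : Prop := ∀ (n : ℕ) (ra : ℝ) (Cf : ℝ → ℝ) (D : ℕ → Dat), Seq n ra Cf D →
  (∀ ε > (0 : ℝ), ∀ᶠ m in UF, ∀ j ≤ (D m).k, 1 - ε ≤ ‖(D m).A j‖) ∧
  (∃ C : ℝ, ∀ᶠ m in UF, ∀ j, 1 ≤ j → j < (D m).k → ‖(D m).A j‖ ≤ C * ‖(D m).F j 0‖)

/-- CMM: `v` and the iterates commute [V3, (5.7)]. Uses VBD, AFF, BA1.
PROOF. `lam v(F j x) = F k (F j x) - F j x = F j (F k x) - F j x = F j (x + lam v x) - F j x`. On the segment from `x` to `x + lam v x` (in `ball 0 (ρ+1)`, as `‖v‖ ≤ C` on `ball 0 ρ`) `‖F j' - F j' x‖ ≤ 2ε'‖A j‖` (AFF), so `‖F j (x + lam v x) - F j x - F j' x lam v x‖ ≤ 2ε'‖A j‖‖lam‖ C`. -/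
def CMM_stmt : Prop := ∀ (n : ℕ) (ra : ℝ) (Cf : ℝ → ℝ) (D : ℕ → Dat), Seq n ra Cf D →
  ∀ ρ > (0 : ℝ), ∀ ε > (0 : ℝ), ∀ᶠ m in UF, ∀ j ≤ (D m).k, ∀ x ∈ ball (0 : ℂ) ρ,
    ‖(D m).v ((D m).F j x) - deriv ((D m).F j) x * (D m).v x‖ ≤ ε * ‖(D m).A j‖

/-- ISL: local form of the isometry property. Uses PHS, BA1, `PPS.LV`, `PPS.LEA`.
PROOF. `y ∈ ball x ρ`, `zz y = G k w` (PHS). For `j ≤ k` the `j`-th iterate maps `G k w'` to `G (k - j) w'` for all `w'` near `w`, so `(f^j)'(zz y) (G k)' w = (G (k-j))' w` and `(f^j)'(zz y)² BB(f^j (zz y)) = τ_{k-j}(w)/(G k)'(w)²`, `BB(zz y) = τ_k(w)/(G k)'(w)²`. In the `x`-plane (BA1: `deriv (F j) y = (f^j)'(zz y)`, `zz (F j y) = f^j (zz y)`):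
`F j' y² B(F j y) = B(y) τ_{k-j}(w)/τ_k(w)`, and `‖τ_q - 1‖ ≤ C‖lam‖` (`PPS.LV` (4)). -/
def ISL_stmt : Prop := ∀ (n : ℕ) (ra : ℝ) (Cf : ℝ → ℝ) (D : ℕ → Dat), Seq n ra Cf D → ∀ x ∈ Reg D, CTL D x →
  ∃ ρ > (0 : ℝ), ∃ C : ℝ, ∀ᶠ m in UF, ∀ j ≤ (D m).k, ∀ y ∈ ball x ρ,
    ‖deriv ((D m).F j) y ^ 2 * (D m).B ((D m).F j y) - (D m).B y‖ ≤ C * ‖(D m).lam‖ * ‖(D m).B y‖

/-- ISO [V3, (5.8)]. Uses ISL, ALC, LMB.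
PROOF. Compactness of `K`, ISL, uniform convergence and boundedness of `B` on `K`, `lam → 0`. -/
def ISO_stmt : Prop := ∀ (n : ℕ) (ra : ℝ) (Cf : ℝ → ℝ) (D : ℕ → Dat), Seq n ra Cf D →
  ∀ K : Set ℂ, IsCompact K → K ⊆ Reg D → ∀ ε > (0 : ℝ), ∀ᶠ m in UF, ∀ j ≤ (D m).k, ∀ x ∈ K,
    ‖deriv ((D m).F j) x ^ 2 * (D m).B ((D m).F j x) - Bin D x‖ ≤ ε

/-- LOKA: assembly. Uses LPI, SEP, LMB, VLM, INJ, AFF, MNI, CMM, ISO. -/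
def LOKA_stmt : Prop := LOK_stmt

end V3S
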